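import Pool.Agent.H190R3.WeiRed
import Pool.Agent.H24R3.PolyNorm

/-!
# The rainbow Ramsey theorem is not Weihrauch reducible to the thin version of Hindman's theorem
for sums of two elements
-/

set_option autoImplicit false

namespace Pool.Agent.Q317.TH

open Pool.Agent.H190R3.Wei

open Classical in
/-- The characteristic function of a set. -/
noncomputable def chi (S : Set ℕ) : ℕ → ℕ := fun n => if n ∈ S then 1 else 0

/-- `RRT²₂`: an instance is a coloring `c` of the pairs `x < y` (the color of the pair is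
`c (Nat.pair x y)`) such that every color is used at most twice, a solution is (the characteristic
function of) an infinite set on whose pairs `c` is injective. -/
def RRT : Problem where
  sol c := {q | (∀ i, {s : ℕ × ℕ | s.1 < s.2 ∧ c (Nat.pair s.1 s.2) = i}.encard ≤ 2) ∧
    ∃ R : Set ℕ, R.Infinite ∧ (∀ x ∈ R, ∀ y ∈ R, ∀ z ∈ R, ∀ w ∈ R, x < y → z < w →
      c (Nat.pair x y) = c (Nat.pair z w) → x = z ∧ y = w) ∧ q = chi R}

/-- `thin-HT⁼²`: an instance is a coloring `c` of the natural numbers, a solution is (the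
characteristic function of) an infinite set such that some color is omitted on the sums of two
distinct elements. -/
def THT : Problem where
  sol c := {q | ∃ S : Set ℕ, S.Infinite ∧ (∃ n, ∀ x ∈ S, ∀ y ∈ S, x < y → c (x + y) ≠ n) ∧
    q = chi S}

/-- Every finite set is an initial segment of a solution. -/
theorem dense (d : ℕ → ℕ) (T : Set ℕ) (m : ℕ) : ∃ S : Set ℕ, S.Infinite ∧
    (∃ n, ∀ x ∈ S, ∀ y ∈ S, x < y → d (x + y) ≠ n) ∧ ∀ k < m, (k ∈ S ↔ k ∈ T) := by
  classical
  obtain ⟨g, hg, b, hb⟩ := Pool.Agent.H24R3.PolyNorm.ramsey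
    (fun i j => decide (d ((i + m) + (j + m)) % 2 = 0))
  -- the finite part
  set F : Finset ℕ := (Finset.range m).filter (fun k => k ∈ T) with hF
  -- the parity of the omitted colors
  set e : ℕ := if b then 1 else 0 with he
  have hpar : ∀ i j, i < j → ∀ t, d ((g i + m) + (g j + m)) ≠ 2 * t + e := by
    intro i j hij t
    have h1 := hb i j hij
    rw [he]
    cases b
    · simp only [Bool.false_eq_true, if_false]
      have := of_decide_eq_false h1
      omega
    · simp only [if_true]
      have := of_decide_eq_true h1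
      omega
  -- a bound for the colors of the sums of two elements of `F`
  obtain ⟨B, hB⟩ : ∃ B, ∀ x ∈ F, ∀ y ∈ F, d (x + y) < B := by
    refine ⟨(F ×ˢ F).sup (fun p => d (p.1 + p.2)) + 1, fun x hx y hy => ?_⟩
    have := Finset.le_sup (f := fun p : ℕ × ℕ => d (p.1 + p.2))
      (Finset.mem_product.2 ⟨hx, hy⟩ : (x, y) ∈ F ×ˢ F)
    exact Nat.lt_succ_of_le this
  -- for every `j` one of the candidates is omitted on the sums with `g j + m`
  have hcand : ∀ j, ∃ t : Fin (F.card + 1), ∀ x ∈ F, d (x + (g j + m)) ≠ 2 * (B + t) + e := by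
    intro j
    by_contra hcon
    push Not at hcon
    choose f hf1 hf2 using hcon
    have hinj : Function.Injective f := by
      intro t t' htt
      have h1 := hf2 t
      have h2 := hf2 t'
      rw [htt] at h1
      have h3 := h1.symm.trans h2
      have : (t : ℕ) = t' := by omega
      exact Fin.ext this
    have h4 : Fintype.card (Fin (F.card + 1)) ≤ F.card := by
      have h5 := Finset.card_le_card_of_injOn (s := Finset.univ) (t := F) f
        (fun t _ => hf1 t) (fun _ _ _ _ h => hinj h)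
      rwa [Finset.card_univ] at h5
    rw [Fintype.card_fin] at h4
    omega
  choose t ht using hcand
  obtain ⟨t0, ht0⟩ := Finite.exists_infinite_fiber t
  have hinf : (t ⁻¹' {t0}).Infinite := Set.infinite_coe_iff.1 ht0
  refine ⟨{k | k ∈ F ∨ ∃ j, t j = t0 ∧ k = g j + m}, ?_, ⟨2 * (B + t0) + e, ?_⟩, ?_⟩
  · have h1 : ((fun j => g j + m) '' (t ⁻¹' {t0})).Infinite :=
      hinf.image (fun a _ b _ h => hg.injective (by simpa using h))
    refine h1.mono ?_
    rintro _ ⟨j, hj, rfl⟩
    exact Or.inr ⟨j, hj, rfl⟩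
  · rintro x (hx | ⟨i, hi, rfl⟩) y (hy | ⟨j, hj, rfl⟩) hxy
    · have := hB x hx y hy; omega
    · rw [← hj]; exact ht j x hx
    · rw [add_comm, ← hi]; exact ht i y hy
    · exact hpar i j (hg.lt_iff_lt.1 (by omega)) _
  · intro k hk
    constructor
    · rintro (h | ⟨j, -, rfl⟩)
      · exact (Finset.mem_filter.1 h).2
      · omega
    · intro h
      exact Or.inl (Finset.mem_filter.2 ⟨Finset.mem_range.2 hk, h⟩)

lemma init_congr_lt {x y : ℕ → ℕ} {m : ℕ} (h : ∀ n < m, x n = y n) : init x m = init y m := by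
  unfold init
  apply List.map_congr_left
  intro i hi
  exact h i (List.mem_range.1 hi)

/-- The coloring in which `{x, b}` and `{y, b}` have the same color for all `b ≥ m`. -/
def colr (x y m : ℕ) (n : ℕ) : ℕ :=
  if n.unpair.1 = y ∧ m ≤ n.unpair.2 then Nat.pair x n.unpair.2 else n

lemma colr_cases (x y m n : ℕ) :
    (colr x y m n = n ∧ ¬ (n.unpair.1 = y ∧ m ≤ n.unpair.2)) ∨
    (n.unpair.1 = y ∧ m ≤ n.unpair.2 ∧ colr x y m n = Nat.pair x n.unpair.2) := by
  unfold colr
  split_ifs with h
  · exact Or.inr ⟨h.1, h.2, rfl⟩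
  · exact Or.inl ⟨rfl, h⟩

theorem no_red (φ ψ : List ℕ → List ℕ) : ¬ Red φ ψ RRT THT := by
  intro hred
  -- the identity coloring
  have hid : (chi Set.univ) ∈ RRT.sol (fun n => n) := by
    refine ⟨fun i => ?_, Set.univ, Set.infinite_univ, ?_, rfl⟩
    · have h1 : {s : ℕ × ℕ | s.1 < s.2 ∧ Nat.pair s.1 s.2 = i} ⊆ {i.unpair} := by
        rintro ⟨a, b⟩ ⟨-, h⟩
        simp only at h
        rw [← h, Nat.unpair_pair]; rfl
      exact (Set.encard_le_encard h1).trans (by simp)
    · intro x _ y _ z _ w _ _ _ h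
      exact Nat.pair_eq_pair.1 h
  obtain ⟨d1, -, ⟨q1, hq1⟩, h1⟩ := hred (fun n => n) ⟨_, hid⟩
  obtain ⟨S1, -, -, rfl⟩ := id hq1
  obtain ⟨r1, ⟨-, R1, hR1, -, rfl⟩, hm1⟩ := h1 _ hq1
  obtain ⟨x, hx⟩ := hR1.nonempty
  obtain ⟨y, hy, hxy⟩ := hR1.exists_gt x
  obtain ⟨M, hM⟩ := hm1.2 (y + 1)
  -- the new coloring
  have hcol : (colr x y (M + y + 1)) '' Set.univ = (colr x y (M + y + 1)) '' Set.univ := rfl
  set m : ℕ := M + y + 1 with hm
  have hdom : (chi {k | y < k}) ∈ RRT.sol (colr x y m) := by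
    refine ⟨fun i => ?_, {k | y < k}, Set.Ioi_infinite y, ?_, rfl⟩
    · have h1 : {s : ℕ × ℕ | s.1 < s.2 ∧ colr x y m (Nat.pair s.1 s.2) = i} ⊆
          {i.unpair, (y, i.unpair.2)} := by
        rintro ⟨a, b⟩ ⟨-, h⟩
        simp only at h
        rcases colr_cases x y m (Nat.pair a b) with ⟨h2, -⟩ | ⟨h2, -, h3⟩
        · rw [h2] at h
          rw [← h, Nat.unpair_pair]; exact Or.inl rfl
        · rw [h3] at h
          rw [Nat.unpair_pair] at h h2
          right
          rw [← h, Nat.unpair_pair]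
          simp only at h2
          rw [h2]; rfl
      refine (Set.encard_le_encard h1).trans (Set.encard_insert_le _ _ |>.trans ?_)
      rw [Set.encard_singleton]; norm_num
    · intro a ha b _ a' ha' b' _ _ _ h
      simp only [Set.mem_setOf_eq] at ha ha'
      have e1 : colr x y m (Nat.pair a b) = Nat.pair a b := by
        rcases colr_cases x y m (Nat.pair a b) with ⟨h2, -⟩ | ⟨h2, -⟩
        · exact h2
        · rw [Nat.unpair_pair] at h2; simp only at h2; omega
      have e2 : colr x y m (Nat.pair a' b') = Nat.pair a' b' := by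
        rcases colr_cases x y m (Nat.pair a' b') with ⟨h2, -⟩ | ⟨h2, -⟩
        · exact h2
        · rw [Nat.unpair_pair] at h2; simp only at h2; omega
      rw [e1, e2] at h
      exact Nat.pair_eq_pair.1 h
  obtain ⟨d2, -, -, h2⟩ := hred _ ⟨_, hdom⟩
  obtain ⟨S2, hS2, hth, hpre⟩ := dense d2 S1 M
  obtain ⟨r2, ⟨-, R2, hR2, hrain, rfl⟩, hm2⟩ := h2 (chi S2) ⟨S2, hS2, hth, rfl⟩
  -- the same initial segment
  have hinit : init (pair (fun n => n) (chi S1)) M = init (pair (colr x y m) (chi S2)) M := by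
    apply init_congr_lt
    intro n hn
    unfold pair
    split_ifs with h
    · rcases colr_cases x y m (n / 2) with ⟨h2, -⟩ | ⟨-, h2, -⟩
      · exact h2.symm
      · have := Nat.unpair_right_le (n / 2)
        omega
    · unfold chi
      have := hpre (n / 2) (by omega)
      by_cases h3 : n / 2 ∈ S1
      · rw [if_pos h3, if_pos (this.2 h3)]
      · rw [if_neg h3, if_neg (fun h4 => h3 (this.1 h4))]
  have heq : ∀ k ≤ y, chi R1 k = chi R2 k := by
    intro k hk
    have e1 := hm1.1 M
    have e2 := hm2.1 M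
    rw [← hinit] at e2
    have e3 : init (chi R1) (ψ (init (pair (fun n => n) (chi S1)) M)).length =
        init (chi R2) (ψ (init (pair (fun n => n) (chi S1)) M)).length := e1.symm.trans e2
    have e4 := init_getD (chi R1) _ k 0 (lt_of_lt_of_le (Nat.lt_succ_of_le hk) hM)
    have e5 := init_getD (chi R2) _ k 0 (lt_of_lt_of_le (Nat.lt_succ_of_le hk) hM)
    rw [← e4, ← e5, e3]
  have mem2 : ∀ k ≤ y, k ∈ R1 → k ∈ R2 := by
    intro k hk hk1
    have e1 := heq k hk
    unfold chi at e1
    rw [if_pos hk1] at e1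
    by_contra hcon
    rw [if_neg hcon] at e1
    omega
  have hx2 := mem2 x hxy.le hx
  have hy2 := mem2 y le_rfl hy
  obtain ⟨z, hz, hmz⟩ := hR2.exists_gt m
  have c1 : colr x y m (Nat.pair x z) = Nat.pair x z := by
    rcases colr_cases x y m (Nat.pair x z) with ⟨h2, -⟩ | ⟨h2, -⟩
    · exact h2
    · rw [Nat.unpair_pair] at h2; simp only at h2; omega
  have c2 : colr x y m (Nat.pair y z) = Nat.pair x z := by
    rcases colr_cases x y m (Nat.pair y z) with ⟨-, h2⟩ | ⟨-, -, h3⟩
    · exfalso
      rw [Nat.unpair_pair] at h2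
      exact h2 ⟨rfl, hmz.le⟩
    · rw [h3, Nat.unpair_pair]
  have := hrain x hx2 z hz y hy2 z hz (by omega) (by omega) (c1.trans c2.symm)
  omega

end Pool.Agent.Q317.TH
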